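import Pool.Agent.Helper71.UQ.Goals

/-!
# Packet UQ-THIRD (helper71, MP_9b2a83_an): the shift by a third
-/

set_option autoImplicit false

namespace Pool.Agent.Helper22.UQ.PkTHIRD

open Pool.Agent.Helper71.UQ

/-- If `X ≤ Y` have different quotients by `N`, then `X` is below the last multiple of `N` up to `Y`. -/
theorem lt_mul_of_ne {N X Y : ℤ} (hN : 0 < N) (h : X ≤ Y) (hne : X / N ≠ Y / N) :
    X < N * (Y / N) := by
  have h1 : X / N < Y / N := lt_of_le_of_ne (Int.ediv_le_ediv hN h) hne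
  have h2 : X < N * (X / N + 1) := by
    have := Int.lt_ediv_add_one_mul_self X hN
    rw [mul_comm]; exact this
  have h3 : N * (X / N + 1) ≤ N * (Y / N) := by
    apply mul_le_mul_of_nonneg_left _ hN.le
    omega
  linarith

theorem thm : G_THIRD := by
  intro m J s X Y hs hJ hXY hlt
  by_contra hcon
  rw [not_or] at hcon
  obtain ⟨h1, h2⟩ := hcon
  have hN : (0 : ℤ) < 2 ^ J := by positivity
  have h4 : (4 : ℤ) ^ m = 2 ^ J * 2 ^ (2 * m - J) := by
    rw [← pow_add, Nat.add_sub_cancel' hJ, pow_mul]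
    norm_num
  have a1 := lt_mul_of_ne hN hXY h1
  have a2 := lt_mul_of_ne hN (by linarith : X + s ≤ Y + s) h2
  have b1 : (2 : ℤ) ^ J * (Y / 2 ^ J) ≤ Y := Int.mul_ediv_self_le hN.ne'
  have b2 : (2 : ℤ) ^ J * ((Y + s) / 2 ^ J) ≤ Y + s := Int.mul_ediv_self_le hN.ne'
  generalize (2 : ℤ) ^ J = N at *
  generalize (2 : ℤ) ^ (2 * m - J) = N' at *
  generalize Y / N = p at *
  generalize (Y + s) / N = p' at *
  -- `δ = N * p' - s - N * p`
  have hδ : 3 * (N * p' - s - N * p) = 1 + N * (3 * (p' - p) - N') := by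
    linear_combination (-1) * hs + (-1) * h4
  generalize hk : 3 * (p' - p) - N' = k at *
  rcases lt_trichotomy k 0 with hk0 | hk0 | hk0
  · have : N * k ≤ N * (-1) := mul_le_mul_of_nonneg_left (by omega) hN.le
    linarith
  · rw [hk0, mul_zero] at hδ
    omega
  · have : N * 1 ≤ N * k := mul_le_mul_of_nonneg_left (by omega) hN.le
    linarith

end Pool.Agent.Helper22.UQ.PkTHIRD
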